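import Pool.Agent.H.MP_65fbb9_lc.B

set_option autoImplicit false

namespace Pool.Agent.Results.MP_2c929a_lc.Yes

open Filter Pool.Agent.H.MP_65fbb9_lc Pool.Agent.Lib.helper21 Pool.Agent.Lib.helper21.PR

attribute [local irreducible] Primrec Computable

/-- Muchnik reducibility -/
def MLe (B C : Set (ℕ → ℕ)) : Prop :=
  ∀ g ∈ C, ∃ f ∈ B, TuringReducible (fun n => Part.some (f n)) fun n => Part.some (g n)

def MEq (B C : Set (ℕ → ℕ)) : Prop := MLe B C ∧ MLe C B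

def IOE (h : ℕ → ℕ) : Set (ℕ → ℕ) :=
  {f | ∀ r : ℕ → ℕ, Computable r → (∀ n, r n < h n) → ∃ᶠ n in atTop, f n = r n}

theorem pow_eq (r : ℕ) (hr : r ≠ 0) :
    MEq (IOE fun n => 2 ^ 2 ^ n) (IOE fun n => 2 ^ 2 ^ n ^ r) := by
  refine ⟨fun g hg => ⟨g, fun y a b => hg y a fun n => (b n).trans_le (Nat.pow_le_pow_right two_pos
    (Nat.pow_le_pow_right two_pos (Nat.le_self_pow hr n))), .rfl⟩, fun g hg => ?_⟩
  obtain ⟨x, a, b⟩ := (io_iff fun _ => by positivity).1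
    (boost r ((io_iff fun _ => by positivity).2 ⟨g, (ci_gf g).red, hg⟩))
  exact ⟨x, b, a.trans (gf_red g)⟩

theorem result : (∃ f : ℕ → ℕ, Computable f ∧ (∀ a : ℕ, ∀ᶠ n in atTop, 2 ^ a ^ n < f n) ∧
    MEq (IOE fun n => 2 ^ 2 ^ n) (IOE f)) ∧
    ∀ r : ℕ, r ≠ 0 → MEq (IOE fun n => 2 ^ 2 ^ n) (IOE fun n => 2 ^ 2 ^ n ^ r) :=
  ⟨⟨_, by fun_prop, fun a => (eventually_gt_atTop a).mono fun n hn => Nat.pow_lt_pow_right one_lt_two
    (by rw [sq, pow_mul]; exact Nat.pow_lt_pow_left (hn.trans Nat.lt_two_pow_self) (by omega)),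
    pow_eq 2 two_ne_zero⟩, pow_eq⟩

end Pool.Agent.Results.MP_2c929a_lc.Yes
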